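import Pool.Agent.H94.LP5.M38
import Pool.Agent.H94.LP5.M69

/-!
# Module VNumII: the dimension is at least the multiplicities
-/

namespace Pool.Agent.H21.NX

open Finset Pool.Agent.H18.Ex

theorem cube_le (s M : ℕ) (hM : 1 ≤ M) : ell s M ^ 3 ≤ 2 ^ (5 * M) * ell s (4 * M) := by
  have h1 := ell_mul_ell_le_two s M M hM hM
  have h2 := ell_mul_ell_le_two s (M + M) M (by omega) hM
  calc ell s M ^ 3 = (ell s M * ell s M) * ell s M := by ring
    _ ≤ (2 ^ (M + M) * ell s (M + M)) * ell s M := Nat.mul_le_mul_right _ h1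
    _ = 2 ^ (M + M) * (ell s (M + M) * ell s M) := by ring
    _ ≤ 2 ^ (M + M) * (2 ^ (M + M + M) * ell s (M + M + M)) := Nat.mul_le_mul_left _ h2
    _ = 2 ^ (5 * M) * ell s (M + M + M) := by
        rw [← mul_assoc, ← pow_add]
        congr 2
        ring
    _ ≤ _ := Nat.mul_le_mul_left _ (ell_mono _ (by omega))

theorem region_two (s M : ℕ) (hs : 2 ≤ s) (hM : 1 ≤ M) (hMs : M ≤ s) :
    ∀ d, 2 ^ 162 * M ≤ d → ∀ (k : ℕ) (m : Fin k → ℕ), (∀ i, m i ≤ M) →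
    Pool.Agent.H18.Fat.ForGeneralPoints (s + 1) k fun p =>
      Pool.Agent.H18.Fat.ImposesMaximalConditions (s + 1) d p m := by
  have hs1 : 1 ≤ s := by omega
  have hc := cube_le s M hM
  have hM2 : M ≤ 2 ^ M := Nat.lt_two_pow_self.le
  have hconst : ∀ a : ℕ, 2 ^ a ≤ 2 ^ (a * M) := fun a =>
    Nat.pow_le_pow_right (by omega) (Nat.le_mul_of_pos_right _ hM)
  have hpow : ∀ j : ℕ, M ^ j ≤ 2 ^ (j * M) := fun j => by
    calc M ^ j ≤ (2 ^ M) ^ j := Nat.pow_le_pow_left hM2 j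
      _ = _ := by rw [← pow_mul, mul_comm]
  refine crit (s := s) (M := M) (D0 := 2 ^ 28 * M) (d0 := 2 ^ 162 * M) hs1 hM
    (Nat.mul_le_mul_right _ (by norm_num)) (by omega) ?_ ?_ ?_
  · calc 16 * M ^ 4 * ell s M ^ 3 ≤ 2 ^ (4 * M) * 2 ^ (4 * M) * (2 ^ (5 * M) * ell s (4 * M)) :=
          Nat.mul_le_mul (Nat.mul_le_mul (hconst 4) (hpow 4)) hc
      _ = 2 ^ (13 * M) * ell s (4 * M) := by
          rw [← mul_assoc, ← pow_add, ← pow_add]
          congr 2
          ring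
      _ ≤ ell s (4 ^ 13 * 4 * M) := iter_quad s M 4 hM hMs 13
      _ = _ := by norm_num
  · have e1 : (2 : ℕ) ^ 162 ≤ ell s (2 ^ 82) := by
      have h1 := sq_le_ell s (2 ^ 82) hs
      have h2 : ((2 : ℕ) ^ 82) ^ 2 = 2 * 2 ^ 163 := by norm_num
      rw [h2] at h1
      have h3 : (2 : ℕ) ^ 162 ≤ 2 ^ 163 := by norm_num
      omega
    calc 16 * M ^ 2 * (2 ^ 162 * M) * ell s M ^ 3 =
        2 ^ 162 * (2 ^ 4 * M ^ 3 * ell s M ^ 3) := by ring
      _ ≤ ell s (2 ^ 82) * (2 ^ (4 * M) * 2 ^ (3 * M) * (2 ^ (5 * M) * ell s (4 * M))) :=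
          Nat.mul_le_mul e1 (Nat.mul_le_mul (Nat.mul_le_mul (hconst 4) (hpow 3)) hc)
      _ = ell s (2 ^ 82) * (2 ^ (12 * M) * ell s (4 * M)) := by
          congr 1
          rw [← mul_assoc, ← pow_add, ← pow_add]
          congr 2
          ring
      _ ≤ ell s (2 ^ 82) * ell s (4 ^ 12 * 4 * M) :=
          Nat.mul_le_mul_left _ (iter_quad s M 4 hM hMs 12)
      _ ≤ ell s (2 ^ 82 * (4 ^ 12 * 4 * M)) :=
          ell_mul_le s _ _ (by norm_num) (Nat.mul_pos (by norm_num) hM) hs1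
      _ ≤ _ := by
          refine ell_mono s ?_
          have h1 : 2 ^ 82 * (4 ^ 12 * 4 * M) = 2 ^ 108 * M := by ring
          rw [h1]
          omega
  · have e1 : ell s M * ell s (2 ^ 28 * M) ≤ 2 ^ (31 * M) * ell s (2 ^ 29 * M) := by
      obtain ⟨a, rfl⟩ : ∃ a, M = a + 1 := ⟨M - 1, by omega⟩
      obtain ⟨b, hb⟩ : ∃ b, 2 ^ 28 * (a + 1) = b + 1 := ⟨2 ^ 28 * (a + 1) - 1, by omega⟩
      have h1 := ell_mul_ell_le s a b
      have h2 : (a + b).choose a ≤ (8 * 2 ^ 28) ^ (a + 1) := by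
        calc (a + b).choose a ≤ (a + b + 1).choose (a + 1) := by
              rw [Nat.choose_succ_succ]
              exact Nat.le_add_right _ _
          _ ≤ ell (a + 1) (2 ^ 28 * (a + 1)) := by
              unfold ell
              exact Nat.choose_le_choose _ (by omega)
          _ ≤ _ := ell_mul_le_pow (a + 1) (2 ^ 28) (by norm_num)
      rw [hb]
      refine le_trans h1 (Nat.mul_le_mul ?_ (ell_mono s (by omega)))
      refine le_trans h2 (le_of_eq ?_)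
      rw [show (8 * 2 ^ 28 : ℕ) = 2 ^ 31 by norm_num, ← pow_mul]
    calc 8 * M ^ 2 * (2 ^ 28 * M) * (ell s M * ell s (2 ^ 28 * M)) =
        2 ^ 31 * M ^ 3 * (ell s M * ell s (2 ^ 28 * M)) := by ring
      _ ≤ 2 ^ (31 * M) * 2 ^ (3 * M) * (2 ^ (31 * M) * ell s (2 ^ 29 * M)) :=
          Nat.mul_le_mul (Nat.mul_le_mul (hconst 31) (hpow 3)) e1
      _ = 2 ^ (65 * M) * ell s (2 ^ 29 * M) := by
          rw [← mul_assoc, ← pow_add, ← pow_add]
          congr 2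
          ring
      _ ≤ ell s (4 ^ 65 * 2 ^ 29 * M) := iter_quad s M (2 ^ 29) hM hMs 65
      _ ≤ _ := by
          refine ell_mono s ?_
          have h1 : 4 ^ 65 * 2 ^ 29 * M = 2 ^ 159 * M := by ring
          rw [h1]
          omega

end Pool.Agent.H21.NX
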